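import Pool.Agent.Helper49.RU.St

/-! RU, module RED: from the two properties of the sequence to non-reflexivity. -/

set_option autoImplicit false

namespace Pool.Agent.Helper87.RU

open Pool.Agent.Helper49.RU
open MeasureTheory Filter Topology Complex
open scoped ENNReal Cardinal ComplexConjugate

/-- The real-linear functional `v ↦ Re <h, v>`. -/
private noncomputable def rf (h : H) : H →L[ℝ] ℝ :=
  Complex.reCLM.comp ((innerSL ℂ h).restrictScalars ℝ)

private theorem rf_apply (h v : H) : rf h v = (inner ℂ h v : ℂ).re := rfl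

private theorem rf_norm (h : H) : ‖rf h‖ ≤ ‖h‖ := by
  refine ContinuousLinearMap.opNorm_le_bound _ (norm_nonneg h) fun v => ?_
  rw [rf_apply, Real.norm_eq_abs]
  exact (Complex.abs_re_le_norm _).trans (norm_inner_le_norm h v)

private theorem rsmul (r : ℝ) (v : H) : r • v = (r : ℂ) • v := by
  exact (Complex.coe_smul r v).symm

/-- A bounded sequence as an element of `BS X`. -/
private def bs {X : Type} [NormedAddCommGroup X] [NormedSpace ℝ X] (g : ℕ → X) (C : ℝ)
    (h : ∀ n, ‖g n‖ ≤ C) : BS X :=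
  ⟨g, memℓp_infty ⟨C, by rintro _ ⟨n, rfl⟩; exact h n⟩⟩

private theorem bs_apply {X : Type} [NormedAddCommGroup X] [NormedSpace ℝ X] (g : ℕ → X) (C : ℝ)
    (h : ∀ n, ‖g n‖ ≤ C) (n : ℕ) : bs g C h n = g n := rfl

private theorem mem_alg (U : Ultrafilter ℕ) (X : Type) [NormedAddCommGroup X] [NormedSpace ℝ X]
    (T : X →L[ℝ] X) : upow U T ∈ ultraAlg U X := by
  intro F ε hε
  refine ⟨upow U T, ⟨T, rfl⟩, fun x _ => ?_⟩
  simpa using hε

theorem hRED (hNRM : StNRM) (hFUN : StFUN) : StRED := by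
  intro U z hz X _ _ i q hqi hR
  obtain ⟨hz1, hz2, hz3⟩ := hz
  have hi1 : ∀ n, ‖i (z n)‖ ≤ ‖i‖ := fun n => by
    have := i.le_opNorm (z n)
    rwa [hz1 n, mul_one] at this
  have hIz : ∀ n, ‖Complex.I • z n‖ = 1 := fun n => by
    rw [norm_smul, Complex.norm_I, one_mul, hz1 n]
  have hi2 : ∀ n, ‖i (Complex.I • z n)‖ ≤ ‖i‖ := fun n => by
    have := i.le_opNorm (Complex.I • z n)
    rwa [hIz n, mul_one] at this
  obtain ⟨φ, hφ⟩ := hFUN U X (fun n => (rf (z n)).comp q) ‖q‖ (fun n => by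
    refine (ContinuousLinearMap.opNorm_comp_le _ _).trans ?_
    have := rf_norm (z n)
    rw [hz1 n] at this
    have h2 := mul_le_mul_of_nonneg_right this (norm_nonneg q)
    linarith)
  obtain ⟨φ', hφ'⟩ := hFUN U X (fun n => (rf (Complex.I • z n)).comp q) ‖q‖ (fun n => by
    refine (ContinuousLinearMap.opNorm_comp_le _ _).trans ?_
    have := rf_norm (Complex.I • z n)
    rw [hIz n] at this
    have h2 := mul_le_mul_of_nonneg_right this (norm_nonneg q)
    linarith)
  obtain ⟨ya, hya⟩ : ∃ ya : BS X, ∀ n, ya n = i (z n) := ⟨bs _ _ hi1, fun n => rfl⟩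
  obtain ⟨yb, hyb⟩ : ∃ yb : BS X, ∀ n, yb n = i (Complex.I • z n) := ⟨bs _ _ hi2, fun n => rfl⟩
  have hS : (φ.smulRight (cls U ya)) ∈ ultraAlg U X := by
    apply hR
    intro N hN hinv v hv
    obtain ⟨x, hx⟩ : ∃ x : BS X, cls U x = v := Submodule.Quotient.mk_surjective _ v
    obtain ⟨c', hc'⟩ : ∃ c' : ℕ → ℂ, c' = fun n => inner ℂ (z n) (q (x n)) := ⟨_, rfl⟩
    have hxn : ∀ n, ‖q (x n)‖ ≤ ‖q‖ * ‖x‖ := fun n =>
      (q.le_opNorm _).trans (mul_le_mul_of_nonneg_left (lp.norm_apply_le_norm (by simp) x n)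
        (norm_nonneg q))
    have hcb : ∀ n, c' n ∈ Metric.closedBall (0 : ℂ) (‖q‖ * ‖x‖) := fun n => by
      rw [mem_closedBall_zero_iff, hc']
      have := norm_inner_le_norm (𝕜 := ℂ) (z n) (q (x n))
      rw [hz1 n, one_mul] at this
      exact this.trans (hxn n)
    obtain ⟨c, -, hc⟩ := (isCompact_closedBall (0 : ℂ) (‖q‖ * ‖x‖)).ultrafilter_le_nhds
      (U.map c') (by
        rw [le_principal_iff, Ultrafilter.coe_map]
        exact Filter.mem_map.2 (Filter.mem_of_superset Filter.univ_mem fun n _ => hcb n))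
    have hct : Tendsto c' (U : Filter ℕ) (𝓝 c) := hc
    have hre : φ v = c.re := by
      have h1 := hφ x
      rw [hx] at h1
      have h2 : Tendsto (fun n => (c' n).re) (U : Filter ℕ) (𝓝 c.re) :=
        (Complex.continuous_re.tendsto c).comp hct
      have h3 : (fun n => ((rf (z n)).comp q) (x n)) = fun n => (c' n).re := by
        funext n
        rw [hc']
        rfl
      rw [h3] at h1
      exact tendsto_nhds_unique h1 h2
    obtain ⟨l, hl⟩ : ∃ l : ℂ, l * c = (c.re : ℂ) := by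
      by_cases h0 : c = 0
      · exact ⟨0, by rw [h0]; simp⟩
      · exact ⟨(c.re : ℂ) / c, div_mul_cancel₀ _ h0⟩
    rw [← SetLike.mem_coe, ← hN.closure_eq]
    refine Metric.mem_closure_iff.2 fun δ hδ => ?_
    obtain ⟨ε, hε, hε2⟩ : ∃ ε : ℝ, 0 < ε ∧ ‖i‖ * (‖l‖ * (2 * ε)) < δ := by
      have hp : 0 < ‖i‖ * ‖l‖ * 2 + 1 := by positivity
      refine ⟨δ / (‖i‖ * ‖l‖ * 2 + 1), by positivity, ?_⟩
      have : ‖i‖ * (‖l‖ * (2 * (δ / (‖i‖ * ‖l‖ * 2 + 1))))
          = δ * ((‖i‖ * ‖l‖ * 2) / (‖i‖ * ‖l‖ * 2 + 1)) := by ring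
      rw [this]
      have h1 : (‖i‖ * ‖l‖ * 2) / (‖i‖ * ‖l‖ * 2 + 1) < 1 := by
        rw [div_lt_one hp]; linarith
      calc δ * ((‖i‖ * ‖l‖ * 2) / (‖i‖ * ‖l‖ * 2 + 1)) < δ * 1 :=
            mul_lt_mul_of_pos_left h1 hδ
        _ = δ := mul_one δ
    obtain ⟨T, hT⟩ := hz3 (fun n => q (x n)) (‖q‖ * ‖x‖) ε hxn hε
    obtain ⟨T', hT'⟩ : ∃ T' : X →L[ℝ] X, ∀ y, T' y = i (l • T (q y)) :=
      ⟨i.comp (((l • T).restrictScalars ℝ).comp q), fun y => rfl⟩
    refine ⟨upow U T' v, hinv _ (mem_alg U X T') v hv, ?_⟩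
    have e1 : φ.smulRight (cls U ya) v = cls U (c.re • ya) := by
      rw [ContinuousLinearMap.smulRight_apply, hre, map_smul]
    have e2 : upow U T' v = cls U (app T' x) := by rw [← hx]; rfl
    rw [e1, e2, dist_eq_norm, ← map_sub]
    refine lt_of_le_of_lt (hNRM U X _ (‖i‖ * (‖l‖ * (2 * ε))) ?_) hε2
    have hcl : ∀ᶠ n in (U : Filter ℕ), ‖c' n - c‖ < ε := by
      have := (Metric.tendsto_nhds.1 hct) ε hε
      filter_upwards [this] with n hn
      rwa [dist_eq_norm] at hn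
    filter_upwards [hT, hcl] with n hn1 hn2
    have e3 : (c.re • ya - app T' x) n = i (-(l • (T (q (x n)) - pz (z n) (q (x n)))
        + (l * (c' n - c)) • z n)) := by
      have h1 : (c.re • ya - app T' x) n = c.re • ya n - app T' x n := rfl
      rw [h1, app_apply, hT', hya, ← map_smul, ← map_sub]
      congr 1
      rw [rsmul, ← hl]
      have h2 : pz (z n) (q (x n)) = c' n • z n := by rw [hc']; rfl
      rw [h2, smul_sub, smul_smul, mul_sub, sub_smul]
      abel
    rw [e3]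
    refine (i.le_opNorm _).trans (mul_le_mul_of_nonneg_left ?_ (norm_nonneg i))
    rw [norm_neg]
    refine (norm_add_le _ _).trans ?_
    rw [norm_smul, norm_smul, norm_mul, hz1 n, mul_one]
    have h1 := mul_le_mul_of_nonneg_left hn1 (norm_nonneg l)
    have h2 := mul_le_mul_of_nonneg_left hn2.le (norm_nonneg l)
    linarith
  -- the contradiction
  have ha : φ (cls U ya) = 1 := by
    have h1 := hφ ya
    have h3 : (fun n => ((rf (z n)).comp q) (ya n)) = fun _ => (1 : ℝ) := by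
      funext n
      rw [hya]
      change rf (z n) (q (i (z n))) = 1
      rw [hqi, rf_apply, inner_self_eq_norm_sq_to_K, hz1 n]
      simp
    rw [h3] at h1
    exact tendsto_nhds_unique h1 tendsto_const_nhds
  have hb : φ (cls U yb) = 0 := by
    have h1 := hφ yb
    have h3 : (fun n => ((rf (z n)).comp q) (yb n)) = fun _ => (0 : ℝ) := by
      funext n
      rw [hyb]
      change rf (z n) (q (i (Complex.I • z n))) = 0
      rw [hqi, rf_apply, inner_smul_right, inner_self_eq_norm_sq_to_K, hz1 n]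
      simp
    rw [h3] at h1
    exact tendsto_nhds_unique h1 tendsto_const_nhds
  classical
  obtain ⟨F, hF⟩ : ∃ F : Finset (UP U X × (UP U X →L[ℝ] ℝ)),
      F = {(cls U ya, φ), (cls U yb, φ')} := ⟨_, rfl⟩
  obtain ⟨R, ⟨T, rfl⟩, hRT⟩ := hS F (1 / 4) (by norm_num)
  have k1 := hRT (cls U ya, φ) (by rw [hF]; simp)
  have k2 := hRT (cls U yb, φ') (by rw [hF]; simp)
  simp only [ContinuousLinearMap.smulRight_apply, ha, hb, one_smul, zero_smul, map_zero] at k1 k2
  obtain ⟨M, hM⟩ : ∃ M : H →L[ℝ] H, ∀ v, M v = q (T (i v)) := ⟨(q.comp T).comp i, fun v => rfl⟩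
  have t1 := hφ (app T ya)
  have t2 := hφ' (app T yb)
  have t3 := hz2 M
  have t4 := t1.sub t2
  have e : (fun n => ((rf (z n)).comp q) (app T ya n)
      - ((rf (Complex.I • z n)).comp q) (app T yb n)) = fun n => tst (⇑M) (z n) := by
    funext n
    rw [app_apply, app_apply, hya, hyb]
    unfold tst
    rw [hM, hM]
    rfl
  rw [e] at t4
  have t5 := tendsto_nhds_unique t4 t3
  rw [← upow_cls, ← upow_cls] at t5
  rw [abs_lt] at k1 k2
  linarith [k1.1, k1.2, k2.1, k2.2]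

end Pool.Agent.Helper87.RU
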